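import Pool.Agent.Q74.SF.Def

/-! # Project SF, JOB Expand: patterns of coincidences as combinations of injectivity indicators -/

set_option autoImplicit false

namespace Pool.Agent.Q176.SF.Expand

open Finset
open Pool.Agent.Q74.SF

variable {k : ℕ}

open Classical in
/-- indicator that `v` is injective on `S` -/
noncomputable def DS {α : Type} (S : Finset (Fin k)) (v : Fin k → α) : ℝ :=
  if Set.InjOn v (S : Set (Fin k)) then 1 else 0

/-- a term of level `j` -/
structure Ok (G : (Fin k → ℤ) → ℝ) (j : ℕ) (p : Finset (Fin k) × ((Fin k → ℤ) → ℝ)) : Prop where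
  ne : p.1.Nonempty
  le : ∀ i ∈ p.1, (i : ℕ) ≤ j
  dep : ∀ z w : Fin k → ℤ, (∀ i, (i ∈ p.1 ∨ j < (i : ℕ)) → z i = w i) → p.2 z = p.2 w
  bd : ∀ z, |p.2 z| ≤ 1
  lip : ∀ Λ : ℝ, 0 ≤ Λ → (∀ z w : Fin k → ℤ, |G z - G w| ≤ Λ * ∑ i, |(z i : ℝ) - w i|) →
    ∀ z w : Fin k → ℤ, |p.2 z - p.2 w| ≤ 2 ^ j * Λ * ∑ i, |(z i : ℝ) - w i|

/-- replace the coordinate `b` by the coordinate `a` -/
def sb (a b : Fin k) (g : (Fin k → ℤ) → ℝ) : (Fin k → ℤ) → ℝ := fun z => g (Function.update z b (z a))

theorem sb_eq (a b : Fin k) (g : (Fin k → ℤ) → ℝ) (z : Fin k → ℤ) (h : z b = z a) : sb a b g z = g z := by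
  unfold sb
  rw [← h, Function.update_eq_self]

theorem inj_insert {α : Type} {v : Fin k → α} {z : Fin k → ℤ} (hG : Good v z) (S : Finset (Fin k)) (s b : Fin k)
    (hs : s ∈ S) (hmax : ∀ i ∈ S, i ≤ s) (hb : s < b) :
    Set.InjOn v ((insert b S : Finset (Fin k)) : Set (Fin k)) ↔ Set.InjOn v (S : Set (Fin k)) ∧ v s ≠ v b := by
  have hbS : b ∉ (S : Set (Fin k)) := fun h => absurd (hmax b (by exact_mod_cast h)) (not_le.2 hb)
  rw [Finset.coe_insert, Set.injOn_insert hbS]
  constructor
  · rintro ⟨h1, h2⟩
    exact ⟨h1, fun h => h2 ⟨s, by exact_mod_cast hs, h⟩⟩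
  · rintro ⟨h1, h2⟩
    refine ⟨h1, ?_⟩
    rintro ⟨i, hi, hv⟩
    have hi' : i ∈ S := by exact_mod_cast hi
    have := (hG i b s (hmax i hi') hb.le hv).1
    exact h2 (this.trans hv)

theorem ok_neg {G : (Fin k → ℤ) → ℝ} {j : ℕ} {S : Finset (Fin k)} {g : (Fin k → ℤ) → ℝ} (h : Ok G j (S, g)) :
    Ok G j (S, fun z => -g z) where
  ne := h.ne
  le := h.le
  dep := fun z w hzw => by
    have h1 : g z = g w := h.dep z w hzw
    show -g z = -g w
    rw [h1]
  bd := fun z => by
    show |-g z| ≤ 1
    rw [abs_neg]
    exact h.bd z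
  lip := fun Λ hΛ hG z w => by
    show |-g z - -g w| ≤ _
    have : -g z - -g w = -(g z - g w) := by ring
    rw [this, abs_neg]
    exact h.lip Λ hΛ hG z w

theorem lip_sb {g : (Fin k → ℤ) → ℝ} {L : ℝ} (hL : 0 ≤ L)
    (h : ∀ z w : Fin k → ℤ, |g z - g w| ≤ L * ∑ i, |(z i : ℝ) - w i|) (a b : Fin k) (z w : Fin k → ℤ) :
    |sb a b g z - sb a b g w| ≤ 2 * L * ∑ i, |(z i : ℝ) - w i| := by
  have h1 := h (Function.update z b (z a)) (Function.update w b (w a))
  have h2 : ∑ i, |((Function.update z b (z a) i : ℤ) : ℝ) - (Function.update w b (w a) i : ℤ)| ≤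
      2 * ∑ i, |(z i : ℝ) - w i| := by
    have e : ∀ i, |((Function.update z b (z a) i : ℤ) : ℝ) - (Function.update w b (w a) i : ℤ)| ≤
        |(z i : ℝ) - w i| + if i = b then |(z a : ℝ) - w a| else 0 := by
      intro i
      by_cases hi : i = b
      · subst hi
        simp
      · simp [Function.update_of_ne hi, hi]
    refine (sum_le_sum fun i _ => e i).trans ?_
    rw [sum_add_distrib, sum_ite_eq' univ b (fun _ => |(z a : ℝ) - w a|), if_pos (mem_univ b)]
    have : |(z a : ℝ) - w a| ≤ ∑ i, |(z i : ℝ) - w i| :=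
      single_le_sum (f := fun i => |(z i : ℝ) - w i|) (fun i _ => abs_nonneg _) (mem_univ a)
    linarith
  calc |sb a b g z - sb a b g w| ≤ L * ∑ i, |((Function.update z b (z a) i : ℤ) : ℝ) - (Function.update w b (w a) i : ℤ)| := h1
    _ ≤ L * (2 * ∑ i, |(z i : ℝ) - w i|) := mul_le_mul_of_nonneg_left h2 hL
    _ = 2 * L * ∑ i, |(z i : ℝ) - w i| := by ring

/-- the same function on a larger set -/
theorem ok_big {G : (Fin k → ℤ) → ℝ} {j : ℕ} {S S' : Finset (Fin k)} {g : (Fin k → ℤ) → ℝ} {b : Fin k}
    (h : Ok G j (S, g)) (hb : (b : ℕ) = j + 1) (hS : S ⊆ S') (hbS : b ∈ S') (hle : ∀ i ∈ S', (i : ℕ) ≤ j + 1) :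
    Ok G (j + 1) (S', g) where
  ne := ⟨b, hbS⟩
  le := hle
  dep := fun z w hzw => by
    refine h.dep z w fun i hi => ?_
    rcases hi with hi | hi
    · exact hzw i (Or.inl (hS hi))
    · by_cases hij : (i : ℕ) = j + 1
      · have : i = b := Fin.ext (hij.trans hb.symm)
        exact hzw i (Or.inl (this ▸ hbS))
      · exact hzw i (Or.inr (by omega))
  bd := h.bd
  lip := fun Λ hΛ hG z w => by
    refine (h.lip Λ hΛ hG z w).trans ?_
    have h1 : 0 ≤ ∑ i, |(z i : ℝ) - w i| := sum_nonneg fun i _ => abs_nonneg _
    have h2 : (2 : ℝ) ^ (j + 1) = 2 * 2 ^ j := by ring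
    have h3 : 0 ≤ 2 ^ j * Λ * ∑ i, |(z i : ℝ) - w i| := by positivity
    show 2 ^ j * Λ * ∑ i, |(z i : ℝ) - w i| ≤ 2 ^ (j + 1) * Λ * ∑ i, |(z i : ℝ) - w i|
    rw [h2]
    nlinarith

theorem ok_sb {G : (Fin k → ℤ) → ℝ} {j : ℕ} {S S' : Finset (Fin k)} {g : (Fin k → ℤ) → ℝ} {a b : Fin k}
    (h : Ok G j (S, g)) (hb : (b : ℕ) = j + 1) (hS : S ⊆ S') (haS : a ∈ S') (hle : ∀ i ∈ S', (i : ℕ) ≤ j + 1) :
    Ok G (j + 1) (S', sb a b g) where
  ne := ⟨a, haS⟩
  le := hle
  dep := fun z w hzw => by
    show g (Function.update z b (z a)) = g (Function.update w b (w a))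
    refine h.dep _ _ fun i hi => ?_
    by_cases hib : i = b
    · subst hib
      rw [Function.update_self, Function.update_self]
      exact hzw a (Or.inl haS)
    · rw [Function.update_of_ne hib, Function.update_of_ne hib]
      rcases hi with hi | hi
      · exact hzw i (Or.inl (hS hi))
      · refine hzw i (Or.inr ?_)
        have : (i : ℕ) ≠ b := fun h => hib (Fin.ext h)
        omega
  bd := fun z => h.bd _
  lip := fun Λ hΛ hG z w => by
    have := lip_sb (L := 2 ^ j * Λ) (by positivity) (fun z w => h.lip Λ hΛ hG z w) a b z w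
    refine this.trans (le_of_eq ?_)
    ring

/-- the indicator of `v a ≠ v b` -/
noncomputable def cc {α : Type} (a b : Fin k) (v : Fin k → α) : ℝ := by
  classical exact if v a = v b then 0 else 1

/-- the value of a list of terms -/
noncomputable def val {α : Type} (L : List (Finset (Fin k) × ((Fin k → ℤ) → ℝ))) (v : Fin k → α) (z : Fin k → ℤ) : ℝ :=
  (L.map fun p => DS p.1 v * p.2 z).sum

theorem step {G : (Fin k → ℤ) → ℝ} {j : ℕ} {p : Finset (Fin k) × ((Fin k → ℤ) → ℝ)} {a b : Fin k}
    (ha : (a : ℕ) = j) (hb : (b : ℕ) = j + 1) (h : Ok G j p) :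
    (∃ L : List (Finset (Fin k) × ((Fin k → ℤ) → ℝ)), L.length ≤ 4 ∧ (∀ q ∈ L, Ok G (j + 1) q) ∧
      ∀ (α : Type) (v : Fin k → α) (z : Fin k → ℤ), Good v z → cc a b v * (DS p.1 v * p.2 z) = val L v z) ∧
    (∃ L : List (Finset (Fin k) × ((Fin k → ℤ) → ℝ)), L.length ≤ 4 ∧ (∀ q ∈ L, Ok G (j + 1) q) ∧
      ∀ (α : Type) (v : Fin k → α) (z : Fin k → ℤ), Good v z → (1 - cc a b v) * (DS p.1 v * p.2 z) = val L v z) := by
  classical
  obtain ⟨S, g⟩ := p
  obtain ⟨s, hs, hmax⟩ : ∃ s ∈ S, ∀ i ∈ S, i ≤ s := ⟨S.max' h.ne, S.max'_mem h.ne, fun i hi => S.le_max' i hi⟩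
  have hle : ∀ i ∈ S, (i : ℕ) ≤ j := h.le
  have hab : a < b := Fin.lt_def.2 (by omega)
  have hsb : s < b := Fin.lt_def.2 (by have := hle s hs; omega)
  have hsa : s ≤ a := Fin.le_def.2 (by have := hle s hs; omega)
  have oT1 : Ok G (j + 1) (insert b S, g) := ok_big h hb (subset_insert _ _) (mem_insert_self _ _) (fun i hi => by
    rcases mem_insert.1 hi with rfl | hi
    · omega
    · have := hle i hi; omega)
  have oT2 : Ok G (j + 1) (insert a S, sb a b g) := ok_sb h hb (subset_insert _ _) (mem_insert_self _ _) (fun i hi => by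
    rcases mem_insert.1 hi with rfl | hi
    · omega
    · have := hle i hi; omega)
  have oT3 : Ok G (j + 1) (insert b (insert a S), sb a b g) :=
    ok_sb h hb ((subset_insert _ _).trans (subset_insert _ _)) (mem_insert_of_mem (mem_insert_self _ _)) (fun i hi => by
    rcases mem_insert.1 hi with rfl | hi
    · omega
    · rcases mem_insert.1 hi with rfl | hi
      · omega
      · have := hle i hi; omega)
  have oU2 : Ok G (j + 1) (insert b S, sb s b g) :=
    ok_sb h hb (subset_insert _ _) (mem_insert_of_mem hs) (fun i hi => by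
    rcases mem_insert.1 hi with rfl | hi
    · omega
    · have := hle i hi; omega)
  have oU3 : Ok G (j + 1) (S, sb s b g) := ok_sb h hb (Subset.refl _) hs (fun i hi => by
    have := hle i hi; omega)
  by_cases haS : a ∈ S
  · have hsa' : s = a := le_antisymm hsa (hmax a haS)
    refine ⟨⟨[(insert b S, g)], by simp, ?_, ?_⟩, ⟨[(insert b S, fun z => -sb s b g z), (S, sb s b g)], by simp, ?_, ?_⟩⟩
    · intro q hq
      rw [List.mem_singleton] at hq
      rw [hq]
      exact oT1
    · intro α v z hG
      have e := inj_insert hG S s b hs hmax hsb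
      simp only [val, DS, cc, List.map_cons, List.map_nil, List.sum_cons, List.sum_nil, e]
      rw [← hsa']
      by_cases h1 : Set.InjOn v (S : Set (Fin k)) <;> by_cases h2 : v s = v b <;> simp [h1, h2]
    · intro q hq
      simp only [List.mem_cons, List.not_mem_nil, or_false] at hq
      rcases hq with rfl | rfl
      · exact ok_neg oU2
      · exact oU3
    · intro α v z hG
      have e := inj_insert hG S s b hs hmax hsb
      simp only [val, DS, cc, List.map_cons, List.map_nil, List.sum_cons, List.sum_nil, e]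
      rw [← hsa']
      by_cases h1 : Set.InjOn v (S : Set (Fin k))
      · by_cases h2 : v s = v b
        · have hz : z b = z s := (hG s b b hsb.le le_rfl h2).2
          simp [h1, h2, sb_eq s b g z hz]
        · simp [h1, h2]
      · simp [h1]
  · have hsa' : s < a := lt_of_le_of_ne hsa (fun h => haS (h ▸ hs))
    refine ⟨⟨[(insert b S, g), (insert a S, fun z => -sb a b g z), (insert b (insert a S), sb a b g)], by simp, ?_, ?_⟩,
      ⟨[(insert b S, fun z => -sb s b g z), (S, sb s b g), (insert a S, sb a b g),
        (insert b (insert a S), fun z => -sb a b g z)], by simp, ?_, ?_⟩⟩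
    · intro q hq
      simp only [List.mem_cons, List.not_mem_nil, or_false] at hq
      rcases hq with rfl | rfl | rfl
      · exact oT1
      · exact ok_neg oT2
      · exact oT3
    · intro α v z hG
      have e := inj_insert hG S s b hs hmax hsb
      have e2 := inj_insert hG S s a hs hmax hsa'
      have e3 := inj_insert hG (insert a S) a b (mem_insert_self _ _) (fun i hi => by
        rcases mem_insert.1 hi with rfl | hi
        · exact le_rfl
        · exact (hmax i hi).trans hsa) hab
      simp only [val, DS, cc, List.map_cons, List.map_nil, List.sum_cons, List.sum_nil, e, e2, e3]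
      by_cases h1 : Set.InjOn v (S : Set (Fin k))
      · by_cases h2 : v a = v b
        · have hz : z b = z a := (hG a b b hab.le le_rfl h2).2
          by_cases h3 : v s = v a
          · have h4 : v s = v b := h3.trans h2
            simp [h1, h2, h3, h4]
          · have h4 : ¬ v s = v b := fun h => h3 (h.trans h2.symm)
            simp [h1, h2, h3, h4, sb_eq a b g z hz]
        · have h4 : ¬ v s = v b := fun h => h2 ((hG s b a hsa hab.le h).1.trans h)
          by_cases h3 : v s = v a
          · simp [h1, h2, h3, h4]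
          · simp [h1, h2, h3, h4]
      · simp [h1]
    · intro q hq
      simp only [List.mem_cons, List.not_mem_nil, or_false] at hq
      rcases hq with rfl | rfl | rfl | rfl
      · exact ok_neg oU2
      · exact oU3
      · exact oT2
      · exact ok_neg oT3
    · intro α v z hG
      have e := inj_insert hG S s b hs hmax hsb
      have e2 := inj_insert hG S s a hs hmax hsa'
      have e3 := inj_insert hG (insert a S) a b (mem_insert_self _ _) (fun i hi => by
        rcases mem_insert.1 hi with rfl | hi
        · exact le_rfl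
        · exact (hmax i hi).trans hsa) hab
      simp only [val, DS, cc, List.map_cons, List.map_nil, List.sum_cons, List.sum_nil, e, e2, e3]
      by_cases h1 : Set.InjOn v (S : Set (Fin k))
      · by_cases h2 : v a = v b
        · have hz : z b = z a := (hG a b b hab.le le_rfl h2).2
          by_cases h3 : v s = v a
          · have h4 : v s = v b := h3.trans h2
            have hz2 : z b = z s := (hG s b b hsb.le le_rfl h4).2
            simp [h1, h2, h3, h4, sb_eq a b g z hz, sb_eq s b g z hz2]
          · have h4 : ¬ v s = v b := fun h => h3 (h.trans h2.symm)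
            simp [h1, h2, h3, h4, sb_eq a b g z hz]
        · have h4 : ¬ v s = v b := fun h => h2 ((hG s b a hsa hab.le h).1.trans h)
          by_cases h3 : v s = v a
          · simp [h1, h2, h3, h4]
          · simp [h1, h2, h3, h4]
      · simp [h1]

theorem val_append {α : Type} (L M : List (Finset (Fin k) × ((Fin k → ℤ) → ℝ))) (v : Fin k → α) (z : Fin k → ℤ) :
    val (L ++ M) v z = val L v z + val M v z := by
  unfold val
  rw [List.map_append, List.sum_append]

/-- apply a transformation to all terms of a list -/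
theorem lift {G : (Fin k → ℤ) → ℝ} {j : ℕ} (f : ∀ α : Type, (Fin k → α) → ℝ)
    (hstep : ∀ p, Ok G j p → ∃ L : List (Finset (Fin k) × ((Fin k → ℤ) → ℝ)), L.length ≤ 4 ∧ (∀ q ∈ L, Ok G (j + 1) q) ∧
      ∀ (α : Type) (v : Fin k → α) (z : Fin k → ℤ), Good v z → f α v * (DS p.1 v * p.2 z) = val L v z)
    (L : List (Finset (Fin k) × ((Fin k → ℤ) → ℝ))) (hL : ∀ q ∈ L, Ok G j q) :
    ∃ M : List (Finset (Fin k) × ((Fin k → ℤ) → ℝ)), M.length ≤ 4 * L.length ∧ (∀ q ∈ M, Ok G (j + 1) q) ∧
      ∀ (α : Type) (v : Fin k → α) (z : Fin k → ℤ), Good v z → f α v * val L v z = val M v z := by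
  induction L with
  | nil => exact ⟨[], by simp, by simp, fun α v z _ => by simp [val]⟩
  | cons p L ih =>
    obtain ⟨M, h1, h2, h3⟩ := ih fun q hq => hL q (List.mem_cons_of_mem _ hq)
    obtain ⟨M', h1', h2', h3'⟩ := hstep p (hL p List.mem_cons_self)
    refine ⟨M' ++ M, ?_, ?_, ?_⟩
    · rw [List.length_append, List.length_cons]
      omega
    · intro q hq
      rcases List.mem_append.1 hq with hq | hq
      · exact h2' q hq
      · exact h2 q hq
    · intro α v z hG
      rw [val_append, ← h3 α v z hG, ← h3' α v z hG, ← mul_add]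
      rfl

open Classical in
/-- the pattern of the indices up to `j` -/
noncomputable def pj {α : Type} (π : Fin k → Fin k) (j : ℕ) (v : Fin k → α) : ℝ :=
  if ∀ i i' : Fin k, (i : ℕ) ≤ j → (i' : ℕ) ≤ j → (v i = v i' ↔ π i = π i') then 1 else 0

theorem level (π : Fin k → Fin k) {G : (Fin k → ℤ) → ℝ} (hG : ∀ z, |G z| ≤ 1) (j : ℕ) : j < k →
    ∃ L : List (Finset (Fin k) × ((Fin k → ℤ) → ℝ)), L.length ≤ 4 ^ j ∧ (∀ q ∈ L, Ok G j q) ∧
      ∀ (α : Type) (v : Fin k → α) (z : Fin k → ℤ), Good v z → pj π j v * G z = val L v z := by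
  classical
  induction j with
  | zero =>
    intro hk
    refine ⟨[({⟨0, hk⟩}, G)], by simp, ?_, ?_⟩
    · intro q hq
      rw [List.mem_singleton] at hq
      rw [hq]
      exact
        { ne := ⟨_, mem_singleton_self _⟩
          le := fun i hi => by
            rw [mem_singleton] at hi
            rw [hi]
          dep := fun z w h => by
            show G z = G w
            congr 1
            funext i
            by_cases hi : (i : ℕ) = 0
            · exact h i (Or.inl (mem_singleton.2 (Fin.ext hi)))
            · exact h i (Or.inr (by omega))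
          bd := hG
          lip := fun Λ hΛ h z w => by
            rw [pow_zero, one_mul]
            exact h z w }
    · intro α v z _
      have e : ∀ i i' : Fin k, (i : ℕ) ≤ 0 → (i' : ℕ) ≤ 0 → (v i = v i' ↔ π i = π i') := by
        intro i i' hi hi'
        have : i = i' := Fin.ext (by omega)
        subst this
        simp
      unfold pj
      rw [if_pos e, one_mul]
      simp [val, DS]
  | succ j ih =>
    intro hk
    obtain ⟨L, h1, h2, h3⟩ := ih (by omega)
    set a : Fin k := ⟨j, by omega⟩ with ha
    set b : Fin k := ⟨j + 1, hk⟩ with hb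
    have hab : a ≤ b := Fin.le_def.2 (by simp [ha, hb])
    have hlt : ∀ i : Fin k, (i : ℕ) ≤ j + 1 → i ≠ b → (i : ℕ) ≤ j := by
      intro i hi hib
      have : (i : ℕ) ≠ j + 1 := fun h => hib (Fin.ext h)
      omega
    have hpow : 4 * L.length ≤ 4 ^ (j + 1) := by
      rw [pow_succ]
      omega
    by_cases hc1 : π b = π a
    · obtain ⟨M, m1, m2, m3⟩ := lift (fun α v => 1 - cc a b v) (fun p hp => (step rfl rfl hp).2) L h2
      refine ⟨M, m1.trans hpow, m2, fun α v z hGd => ?_⟩
      rw [← m3 α v z hGd, ← h3 α v z hGd, ← mul_assoc]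
      congr 1
      unfold pj cc
      by_cases hv : v a = v b
      · rw [if_pos hv, sub_zero, one_mul]
        congr 1
        apply propext
        constructor
        · intro h i i' hi hi'
          exact h i i' (by omega) (by omega)
        · intro h i i' hi hi'
          -- replace `b` by `a`
          have key : ∀ i : Fin k, (i : ℕ) ≤ j + 1 → ∃ i₁ : Fin k, (i₁ : ℕ) ≤ j ∧ v i = v i₁ ∧ π i = π i₁ := by
            intro i hi
            by_cases hib : i = b
            · exact ⟨a, le_rfl, by rw [hib, hv], by rw [hib, hc1]⟩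
            · exact ⟨i, hlt i hi hib, rfl, rfl⟩
          obtain ⟨i₁, hi₁, e1, e2⟩ := key i hi
          obtain ⟨i₂, hi₂, e3, e4⟩ := key i' hi'
          rw [e1, e2, e3, e4]
          exact h i₁ i₂ hi₁ hi₂
      · rw [if_neg hv, sub_self, zero_mul, if_neg]
        intro h
        exact hv ((h a b (by simp [ha]) (by simp [hb])).2 hc1.symm)
    · by_cases hc2 : ∀ i : Fin k, (i : ℕ) ≤ j → π b ≠ π i
      · obtain ⟨M, m1, m2, m3⟩ := lift (fun α v => cc a b v) (fun p hp => (step rfl rfl hp).1) L h2
        refine ⟨M, m1.trans hpow, m2, fun α v z hGd => ?_⟩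
        rw [← m3 α v z hGd, ← h3 α v z hGd, ← mul_assoc]
        congr 1
        unfold pj cc
        by_cases hv : v a = v b
        · rw [if_pos hv, zero_mul, if_neg]
          intro h
          exact hc1 ((h a b (by simp [ha]) (by simp [hb])).1 hv).symm
        · rw [if_neg hv, one_mul]
          congr 1
          apply propext
          constructor
          · intro h i i' hi hi'
            exact h i i' (by omega) (by omega)
          · intro h i i' hi hi'
            have key : ∀ i : Fin k, (i : ℕ) ≤ j → v i ≠ v b := by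
              intro i hi hvi
              have := (hGd i b a (Fin.le_def.2 (by simpa [ha] using hi)) hab hvi).1
              exact hv (this.trans hvi)
            by_cases hib : i = b
            · by_cases hib' : i' = b
              · rw [hib, hib']
                simp
              · rw [hib]
                have h5 := key i' (hlt i' hi' hib')
                have h6 := hc2 i' (hlt i' hi' hib')
                exact ⟨fun h => absurd h.symm h5, fun h => absurd h h6⟩
            · by_cases hib' : i' = b
              · rw [hib']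
                have h5 := key i (hlt i hi hib)
                have h6 := hc2 i (hlt i hi hib)
                exact ⟨fun h => absurd h h5, fun h => absurd h.symm h6⟩
              · exact h i i' (hlt i hi hib) (hlt i' hi' hib')
      · refine ⟨[], by simp, by simp, fun α v z hGd => ?_⟩
        push Not at hc2
        obtain ⟨i, hi, hπ⟩ := hc2
        unfold pj
        rw [if_neg]
        · simp [val]
        · intro h
          have hv : v i = v b := (h i b (by omega) (by simp [hb])).2 hπ.symm
          have h5 := (hGd i b a (Fin.le_def.2 (by simpa [ha] using hi)) hab hv).1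
          have h6 := (h a i (by simp [ha]) (by omega)).1 h5
          exact hc1 (hπ.trans h6.symm)

/-- extension by zero -/
noncomputable def ext (S : Finset (Fin k)) (y : Fin S.card → ℤ) : Fin k → ℤ := by
  classical exact fun i => if h : i ∈ S then y ((S.orderIsoOfFin rfl).symm ⟨i, h⟩) else 0

theorem ext_mem (S : Finset (Fin k)) (z : Fin k → ℤ) (i : Fin k) (hi : i ∈ S) :
    ext S (z ∘ S.orderEmbOfFin rfl) i = z i := by
  classical
  unfold ext
  rw [dif_pos hi]
  show z (S.orderEmbOfFin rfl ((S.orderIsoOfFin rfl).symm ⟨i, hi⟩)) = z i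
  rw [← Finset.coe_orderIsoOfFin_apply, OrderIso.apply_symm_apply]

theorem ext_sum (S : Finset (Fin k)) (y w : Fin S.card → ℤ) :
    ∑ i, |(ext S y i : ℝ) - ext S w i| = ∑ i, |(y i : ℝ) - w i| := by
  classical
  have e1 : ∑ i, |(ext S y i : ℝ) - ext S w i| = ∑ i ∈ S, |(ext S y i : ℝ) - ext S w i| := by
    symm
    apply sum_subset (subset_univ S)
    intro i _ hi
    unfold ext
    rw [dif_neg hi, dif_neg hi]
    simp
  rw [e1, ← Finset.sum_coe_sort, ← (S.orderIsoOfFin rfl).toEquiv.sum_comp]
  apply sum_congr rfl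
  intro i _
  have h1 : ∀ y : Fin S.card → ℤ, ext S y ((S.orderIsoOfFin rfl) i : Fin k) = y i := by
    intro y
    unfold ext
    rw [dif_pos ((S.orderIsoOfFin rfl) i).2]
    show y ((S.orderIsoOfFin rfl).symm ((S.orderIsoOfFin rfl) i)) = y i
    rw [OrderIso.symm_apply_apply]
  show |(ext S y ((S.orderIsoOfFin rfl) i : Fin k) : ℝ) - ext S w ((S.orderIsoOfFin rfl) i : Fin k)| = _
  rw [h1, h1]

theorem inj_comp {α : Type} (S : Finset (Fin k)) (v : Fin k → α) :
    Function.Injective (v ∘ S.orderEmbOfFin rfl) ↔ Set.InjOn v (S : Set (Fin k)) := by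
  constructor
  · intro h i hi i' hi' hv
    have e : ∀ i (hi : i ∈ S), S.orderEmbOfFin rfl ((S.orderIsoOfFin rfl).symm ⟨i, hi⟩) = i := by
      intro i hi
      rw [← Finset.coe_orderIsoOfFin_apply, OrderIso.apply_symm_apply]
    have hi2 : i ∈ S := by exact_mod_cast hi
    have hi2' : i' ∈ S := by exact_mod_cast hi'
    have := @h ((S.orderIsoOfFin rfl).symm ⟨i, hi2⟩) ((S.orderIsoOfFin rfl).symm ⟨i', hi2'⟩) (by
      show v (S.orderEmbOfFin rfl _) = v (S.orderEmbOfFin rfl _)
      rw [e i hi2, e i' hi2']
      exact hv)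
    rw [← e i hi2, ← e i' hi2', this]
  · intro h x y hxy
    have := h (by exact_mod_cast S.orderEmbOfFin_mem rfl x) (by exact_mod_cast S.orderEmbOfFin_mem rfl y) hxy
    exact (S.orderEmbOfFin rfl).injective this

open Classical in
theorem expand : S_Expand := by
  intro k
  rcases Nat.eq_zero_or_pos k with hk0 | hk
  · subst hk0
    refine ⟨1, 0, le_rfl, fun π G hG => ⟨fun _ => 0, fun _ i => i.elim0, fun _ _ => G (fun i => i.elim0), ?_, ?_, ?_, ?_⟩⟩
    · intro x i
      exact i.elim0
    · intro x z
      exact hG _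
    · intro Λ hΛ _ x z w
      simp
    · intro α v z _
      have e : z = fun i => i.elim0 := Subsingleton.elim _ _
      have e2 : pat π v = 1 := by
        unfold pat
        rw [if_pos]
        intro i
        exact i.elim0
      have e3 : ∀ x : Fin 1, Function.Injective (v ∘ (fun i : Fin 0 => (i.elim0 : Fin 0))) := fun _ i => i.elim0
      rw [e2, one_mul]
      simp only [Fin.sum_univ_one, e, if_pos (e3 0)]
  · refine ⟨4 ^ (k - 1), 2 ^ (k - 1), by positivity, fun π G hG => ?_⟩
    obtain ⟨L, h1, h2, h3⟩ := level π hG (k - 1) (by omega)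
    -- the terms, padded by zeros
    let tm : Fin (4 ^ (k - 1)) → Finset (Fin k) × ((Fin k → ℤ) → ℝ) := fun x =>
      if h : (x : ℕ) < L.length then L[(x : ℕ)] else (∅, fun _ => 0)
    have hbd : ∀ x z, |(tm x).2 z| ≤ 1 := by
      intro x z
      by_cases h : (x : ℕ) < L.length
      · simp only [tm, dif_pos h]
        exact (h2 _ (List.getElem_mem h)).bd z
      · simp only [tm, dif_neg h]
        simp
    refine ⟨fun x => (tm x).1.card, fun x => (tm x).1.orderEmbOfFin rfl, fun x y => (tm x).2 (ext (tm x).1 y), ?_, ?_, ?_, ?_⟩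
    · intro x
      exact ((tm x).1.orderEmbOfFin rfl).strictMono
    · intro x z
      exact hbd x _
    · intro Λ hΛ hL x z w
      by_cases h : (x : ℕ) < L.length
      · have := (h2 _ (List.getElem_mem h)).lip Λ hΛ hL
        have e : tm x = L[(x : ℕ)] := by
          simp only [tm, dif_pos h]
        have h4 := this (ext (tm x).1 z) (ext (tm x).1 w)
        rw [ext_sum] at h4
        rw [← e] at h4
        exact h4
      · have e : tm x = (∅, fun _ => 0) := by
          simp only [tm, dif_neg h]
        have e2 : (tm x).2 = fun _ => 0 := by rw [e]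
        show |(tm x).2 (ext (tm x).1 z) - (tm x).2 (ext (tm x).1 w)| ≤ _
        rw [e2]
        simp only [sub_self, abs_zero]
        have : 0 ≤ ∑ i, |(z i : ℝ) - w i| := sum_nonneg fun i _ => abs_nonneg _
        positivity
    · intro α v z hGd
      have e1 : pat π v = pj π (k - 1) v := by
        unfold pat pj
        congr 1
        apply propext
        constructor
        · intro h i i' _ _
          exact h i i'
        · intro h i i'
          exact h i i' (by omega) (by omega)
      rw [e1, h3 α v z hGd]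
      have e2 : ∀ x : Fin (4 ^ (k - 1)), (if Function.Injective (v ∘ (tm x).1.orderEmbOfFin rfl) then
          (tm x).2 (ext (tm x).1 (z ∘ (tm x).1.orderEmbOfFin rfl)) else 0) = DS (tm x).1 v * (tm x).2 z := by
        intro x
        unfold DS
        by_cases h : (x : ℕ) < L.length
        · have hok : Ok G (k - 1) (tm x) := by
            simp only [tm, dif_pos h]
            exact h2 _ (List.getElem_mem h)
          have e3 : (tm x).2 (ext (tm x).1 (z ∘ (tm x).1.orderEmbOfFin rfl)) = (tm x).2 z := by
            refine hok.dep _ _ fun i hi => ?_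
            rcases hi with hi | hi
            · exact ext_mem _ z i hi
            · exfalso
              omega
          rw [e3]
          by_cases hi : Set.InjOn v ((tm x).1 : Set (Fin k))
          · rw [if_pos hi, if_pos ((inj_comp _ v).2 hi), one_mul]
          · rw [if_neg hi, if_neg (fun h => hi ((inj_comp _ v).1 h)), zero_mul]
        · have e : tm x = (∅, fun _ => 0) := by
            simp only [tm, dif_neg h]
          have e4 : (tm x).2 = fun _ => 0 := by rw [e]
          rw [e4]
          simp
      rw [sum_congr rfl (fun x _ => e2 x)]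
      -- the sum over the list
      have e5 : ∀ n, ∀ hn : L.length ≤ n, (∑ x : Fin n, (fun y : ℕ => if h : y < L.length then DS (L[y]).1 v * (L[y]).2 z else 0) x) =
          val L v z := by
        intro n hn
        rw [← Finset.sum_range (fun y : ℕ => if h : y < L.length then DS (L[y]).1 v * (L[y]).2 z else 0)]
        rw [← Finset.sum_subset (Finset.range_subset_range.2 hn)]
        · rw [Finset.sum_range]
          unfold val
          rw [← List.sum_ofFn]
          congr 1
          apply List.ext_getElem
          · simp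
          · intro i h5 h6
            rw [List.length_map] at h6
            simp only [List.getElem_ofFn, List.getElem_map]
            rw [dif_pos h6]
        · intro y _ hy
          rw [Finset.mem_range, not_lt] at hy
          rw [dif_neg (not_lt.2 hy)]
      rw [← e5 _ h1]
      apply sum_congr rfl
      intro x _
      by_cases h : (x : ℕ) < L.length
      · simp only [tm, dif_pos h]
      · simp only [tm, dif_neg h]
        simp

end Pool.Agent.Q176.SF.Expand
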