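import Pool.Agent.Q74.SF.Def

/-! # Project SF, JOB Prod: short intervals, independence of `k` random points up to time `(cI - η) log H` -/

set_option autoImplicit false

namespace Pool.Agent.Q176.SF.Prod

open Finset
open Pool.Agent.Q74.KP
open Pool.Agent.Q74.SF
open Pool.Agent.Q74.AR (oc bE law_F sum_oc bE_close bE_add bE_mul bE_const)
open Pool.Agent.Q158.Col4 (cI)

variable {k : ℕ}

/-- the operator `p` does not touch the coordinate `0` and acts like `q` on the others -/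
def Rel (p : Rg (k + 1)) (q : Rg k) : Prop := ∀ (F : (Fin (k + 1) → ℤ) → ℝ) (a0 : ℤ) (a : Fin k → ℤ),
  act (k + 1) p F (Fin.cons a0 a : Fin (k + 1) → ℤ) =
    act k q (fun z => F (Fin.cons a0 z : Fin (k + 1) → ℤ)) a

theorem Rel_one : Rel (1 : Rg (k + 1)) (1 : Rg k) := by
  intro F a0 a
  rw [act_one, act_one]

theorem Rel_mul {p p' : Rg (k + 1)} {q q' : Rg k} (h : Rel p q) (h' : Rel p' q') : Rel (p * p') (q * q') := by
  intro F a0 a
  have e : (fun z => act (k + 1) p' F (Fin.cons a0 z : Fin (k + 1) → ℤ)) =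
      act k q' (fun z => F (Fin.cons a0 z : Fin (k + 1) → ℤ)) := funext fun z => h' F a0 z
  rw [act_mul, act_mul, h, e]

theorem Rel_pow {p : Rg (k + 1)} {q : Rg k} (h : Rel p q) (n : ℕ) : Rel (p ^ n) (q ^ n) := by
  induction n with
  | zero => rw [pow_zero, pow_zero]; exact Rel_one
  | succ n ih => rw [pow_succ, pow_succ]; exact Rel_mul ih h

theorem Rel_prod (s : Finset (Fin k)) (p : Fin k → Rg (k + 1)) (q : Fin k → Rg k) (h : ∀ i, Rel (p i) (q i)) :
    Rel (∏ i ∈ s, p i) (∏ i ∈ s, q i) := by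
  classical
  induction s using Finset.induction_on with
  | empty => rw [prod_empty, prod_empty]; exact Rel_one
  | insert i s hi ih =>
    rw [prod_insert hi, prod_insert hi]
    exact Rel_mul (h i) ih

theorem Rel_P (i : Fin k) : Rel (Po i.succ) (Po i) := by
  intro F a0 a
  rw [act_P, act_P]
  congr 3
  funext j
  refine Fin.cases ?_ (fun j => ?_) j
  · simp
  · by_cases hj : j = i
    · subst hj
      simp
    · have : j.succ ≠ i.succ := fun h => hj (Fin.succ_injective _ h)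
      simp [Pi.single_eq_of_ne hj, Pi.single_eq_of_ne this]

theorem act_cons (m : ℕ) (F : (Fin (k + 1) → ℤ) → ℝ) (a0 : ℤ) (a : Fin k → ℤ) :
    act (k + 1) (PP (k + 1) ^ m) F (Fin.cons a0 a : Fin (k + 1) → ℤ) =
      bE m (fun y => act k (PP k ^ m) (fun z => F (Fin.cons (a0 + (y : ℤ)) z : Fin (k + 1) → ℤ)) a) := by
  have e : PP (k + 1) = Po 0 * ∏ i : Fin k, Po i.succ := by
    unfold PP
    rw [Fin.prod_univ_succ]
  rw [e, mul_pow, act_mul, act_Ppow]
  congr 1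
  funext y
  have e2 : (Fin.cons a0 a : Fin (k + 1) → ℤ) + Pi.single 0 (y : ℤ) = (Fin.cons (a0 + (y : ℤ)) a : Fin (k + 1) → ℤ) := by
    funext j
    refine Fin.cases ?_ (fun j => ?_) j
    · simp
    · simp
  rw [e2]
  exact Rel_pow (Rel_prod univ _ _ Rel_P) m F _ a

/-- functions with values in `[-1, 1]` -/
theorem law1 {η ε : ℝ} (hη : 0 < η) (hε : 0 < ε) : ∃ H₀ : ℕ, 2 ≤ H₀ ∧ ∀ H : ℕ, H₀ ≤ H → ∀ (a : ℤ) (t : ℕ),
    (t : ℝ) ≤ (cI - η) * Real.log H → ∀ F : ℕ → ℝ, (∀ k, |F k| ≤ 1) →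
    |(∑ h ∈ range H, F (oc t (a + h))) / H - bE t F| ≤ ε := by
  obtain ⟨H₀, h2, hH₀⟩ := law_F hη (half_pos hε)
  refine ⟨H₀, h2, fun H hH a t ht F hF => ?_⟩
  have hHr : (0 : ℝ) < H := by exact_mod_cast (by omega : 0 < H)
  have h := hH₀ H hH a t ht (fun n => (F n + 1) / 2) (fun n => by
    have := abs_le.1 (hF n)
    show 0 ≤ (F n + 1) / 2
    linarith [this.1]) (fun n => by
    have := abs_le.1 (hF n)
    show (F n + 1) / 2 ≤ 1
    linarith [this.2])
  have e1 : bE t (fun n => (F n + 1) / 2) = (bE t F + 1) / 2 := by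
    have e : (fun n => (F n + 1) / 2) = fun n => (1 / 2 : ℝ) * (F n + 1) := by
      funext n
      ring
    rw [e, bE_mul, bE_add, bE_const]
    ring
  have e2 : (∑ h ∈ range H, (fun n => (F n + 1) / 2) (oc t (a + h))) / H =
      ((∑ h ∈ range H, F (oc t (a + h))) / H + 1) / 2 := by
    rw [← sum_div, sum_add_distrib, sum_const, card_range, nsmul_eq_mul]
    field_simp
  rw [e1, e2] at h
  have e3 : ((∑ h ∈ range H, F (oc t (a + h))) / H + 1) / 2 - (bE t F + 1) / 2 =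
      ((∑ h ∈ range H, F (oc t (a + h))) / H - bE t F) / 2 := by ring
  rw [e3, abs_div, abs_of_pos (by norm_num : (0 : ℝ) < 2)] at h
  linarith

/-- `k` random points of an interval -/
theorem pts (H m : ℕ) (hH : 0 < H) (ε : ℝ)
    (hl : ∀ (a : ℤ) (F : ℕ → ℝ), (∀ k, |F k| ≤ 1) → |(∑ h ∈ range H, F (oc m (a + h))) / H - bE m F| ≤ ε)
    (x : ℤ) (k : ℕ) : ∀ G : (Fin k → ℤ) → ℝ, (∀ z, |G z| ≤ 1) →
    |(∑ h : Fin k → Fin H, G (fun i => (oc m (x + (h i : ℕ)) : ℤ))) / (H : ℝ) ^ k - act k (PP k ^ m) G 0| ≤ k * ε := by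
  have hHr : (0 : ℝ) < H := by exact_mod_cast hH
  induction k with
  | zero =>
    intro G hG
    have e : PP 0 = 1 := by
      unfold PP
      simp
    rw [e, one_pow, act_one, Fintype.sum_subsingleton _ (fun i : Fin 0 => i.elim0)]
    have e2 : (fun i : Fin 0 => (oc m (x + (((fun i : Fin 0 => i.elim0 : Fin 0 → Fin H) i : Fin H) : ℕ)) : ℤ)) = 0 :=
      Subsingleton.elim _ _
    rw [e2]
    simp
  | succ k ih =>
    intro G hG
    have e1 : ∑ h : Fin (k + 1) → Fin H, G (fun i => (oc m (x + (h i : ℕ)) : ℤ)) =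
        ∑ h0 : Fin H, ∑ h : Fin k → Fin H,
          G (Fin.cons (oc m (x + (h0 : ℕ)) : ℤ) (fun i => (oc m (x + (h i : ℕ)) : ℤ)) : Fin (k + 1) → ℤ) := by
      rw [← Fintype.sum_prod_type', ← (Fin.consEquiv (fun _ : Fin (k + 1) => Fin H)).sum_comp]
      apply sum_congr rfl
      rintro ⟨h0, h⟩ _
      congr 1
      funext i
      refine Fin.cases ?_ (fun j => ?_) i
      · simp [Fin.consEquiv]
      · simp [Fin.consEquiv]
    set A : ℕ → ℝ := fun y => act k (PP k ^ m) (fun z => G (Fin.cons (y : ℤ) z : Fin (k + 1) → ℤ)) 0 with hA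
    have hA1 : ∀ y, |A y| ≤ 1 := by
      intro y
      have := Bd_PP (k := k) m (fun z => G (Fin.cons (y : ℤ) z : Fin (k + 1) → ℤ)) 1 (fun z => hG _) 0
      rw [one_mul] at this
      exact this
    have e2 : act (k + 1) (PP (k + 1) ^ m) G 0 = bE m A := by
      have e0 : (0 : Fin (k + 1) → ℤ) = (Fin.cons 0 0 : Fin (k + 1) → ℤ) := by
        funext j
        refine Fin.cases ?_ (fun j => ?_) j
        · simp
        · simp
      rw [e0, act_cons]
      simp only [zero_add]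
      rfl
    have h1 := hl x A hA1
    rw [sum_range (fun h => A (oc m (x + (h : ℕ))))] at h1
    have h2 : |(∑ h0 : Fin H, ∑ h : Fin k → Fin H,
          G (Fin.cons (oc m (x + (h0 : ℕ)) : ℤ) (fun i => (oc m (x + (h i : ℕ)) : ℤ)) : Fin (k + 1) → ℤ)) /
            (H : ℝ) ^ (k + 1) - (∑ h0 : Fin H, A (oc m (x + (h0 : ℕ)))) / H| ≤ k * ε := by
      have e3 : (∑ h0 : Fin H, ∑ h : Fin k → Fin H,
          G (Fin.cons (oc m (x + (h0 : ℕ)) : ℤ) (fun i => (oc m (x + (h i : ℕ)) : ℤ)) : Fin (k + 1) → ℤ)) /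
            (H : ℝ) ^ (k + 1) - (∑ h0 : Fin H, A (oc m (x + (h0 : ℕ)))) / H =
          (∑ h0 : Fin H, ((∑ h : Fin k → Fin H,
          G (Fin.cons (oc m (x + (h0 : ℕ)) : ℤ) (fun i => (oc m (x + (h i : ℕ)) : ℤ)) : Fin (k + 1) → ℤ)) /
            (H : ℝ) ^ k - A (oc m (x + (h0 : ℕ))))) / H := by
        rw [sum_sub_distrib, ← sum_div]
        field_simp
        ring
      rw [e3, abs_div, abs_of_pos hHr, div_le_iff₀ hHr]
      refine (abs_sum_le_sum_abs _ _).trans ?_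
      refine (sum_le_sum (fun (h0 : Fin H) _ => ih (fun z => G (Fin.cons (oc m (x + (h0 : ℕ)) : ℤ) z : Fin (k + 1) → ℤ))
        (fun z => hG _))).trans ?_
      rw [sum_const, card_univ, Fintype.card_fin, nsmul_eq_mul, mul_comm]
    rw [e1, e2]
    push_cast
    have h3 := abs_sub_le ((∑ h0 : Fin H, ∑ h : Fin k → Fin H,
          G (Fin.cons (oc m (x + (h0 : ℕ)) : ℤ) (fun i => (oc m (x + (h i : ℕ)) : ℤ)) : Fin (k + 1) → ℤ)) /
            (H : ℝ) ^ (k + 1)) ((∑ h0 : Fin H, A (oc m (x + (h0 : ℕ)))) / H) (bE m A)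
    linarith

theorem EE_oc (m : ℕ) (g : ℕ → ℝ) : EE m (fun x => g (oc m x)) = bE m g := by
  unfold EE
  rw [sum_oc]
  field_simp

theorem EE_close (m : ℕ) {F G : ℤ → ℝ} {ε : ℝ} (h : ∀ n, |F n - G n| ≤ ε) : |EE m F - EE m G| ≤ ε := by
  have h1 := EE_mono m (F := fun n => F n - G n) (G := fun _ => ε) (fun n => (abs_le.1 (h n)).2)
  have h2 := EE_mono m (F := fun _ => -ε) (G := fun n => F n - G n) (fun n => (abs_le.1 (h n)).1)
  rw [EE_const, EE_sub] at h1 h2
  exact abs_le.2 ⟨h2, h1⟩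

theorem prod : S_Prod := by
  intro k η ε hη hε
  obtain ⟨H₀, h2, hH₀⟩ := law1 hη (show (0 : ℝ) < ε / (k + 1) by positivity)
  refine ⟨H₀, h2, fun H hH m hm F hF => ?_⟩
  have hHr : (0 : ℝ) < H := by exact_mod_cast (by omega : 0 < H)
  have hp := fun (x : ℤ) => pts H m (by omega) (ε / (k + 1)) (fun a G hG => hH₀ H hH a m hm G hG) x k
  have e1 : (∑ h : Fin k → Fin H, EE m (fun x => F (Fin.cons (oc m x : ℤ)
      (fun i => (oc m (x + (h i : ℕ)) : ℤ))))) / (H : ℝ) ^ k =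
      EE m (fun x => (∑ h : Fin k → Fin H, F (Fin.cons (oc m x : ℤ)
        (fun i => (oc m (x + (h i : ℕ)) : ℤ)) : Fin (k + 1) → ℤ)) / (H : ℝ) ^ k) := by
    have e : (fun x : ℤ => (∑ h : Fin k → Fin H, F (Fin.cons (oc m x : ℤ)
        (fun i => (oc m (x + (h i : ℕ)) : ℤ)) : Fin (k + 1) → ℤ)) / (H : ℝ) ^ k) =
        fun x => ((H : ℝ) ^ k)⁻¹ * (∑ h : Fin k → Fin H, F (Fin.cons (oc m x : ℤ)
        (fun i => (oc m (x + (h i : ℕ)) : ℤ)) : Fin (k + 1) → ℤ)) := by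
      funext x
      rw [div_eq_inv_mul]
    rw [e, EE_mul, EE_sum, div_eq_inv_mul]
  have e0 : (0 : Fin (k + 1) → ℤ) = (Fin.cons 0 0 : Fin (k + 1) → ℤ) := by
    funext j
    refine Fin.cases ?_ (fun j => ?_) j
    · simp
    · simp
  rw [e1, e0, act_cons, ← EE_oc]
  have hk : (k : ℝ) * (ε / (k + 1)) ≤ ε := by
    rw [mul_div_assoc', div_le_iff₀ (by positivity)]
    nlinarith
  refine (EE_close m (fun x => ?_)).trans hk
  have := hp x (fun z => F (Fin.cons (oc m x : ℤ) z : Fin (k + 1) → ℤ)) (fun z => hF _)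
  simpa only [zero_add] using this

end Pool.Agent.Q176.SF.Prod
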